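import Pool.Agent.H.MP_8fd369_lc.A

set_option autoImplicit false

namespace Pool.Agent.Results.MP_8fd369_lc.Yes

open Ordinal

/-- The moves `a n, …, a 0` of Player I so far, newest first. -/
def hist {A : Type} (a : ℕ → A) : ℕ → List A
  | 0 => [a 0]
  | n + 1 => a (n + 1) :: hist a n

/-- `σ` (Player II's answer to the list of Player I's moves so far) wins `BG(A,S)`. -/
def Wins {A : Type} [LinearOrder A] (S : Set A) (σ : List A → A) : Prop :=
  ∀ a : ℕ → A,
    (∀ n, (∀ m < n, a m < a (m + 1) ∧ a (m + 1) < σ (hist a m)) →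
      a n < σ (hist a n) ∧ ∀ m, n = m + 1 → σ (hist a n) < σ (hist a m)) ∧
    ((∀ m, a m < a (m + 1) ∧ a (m + 1) < σ (hist a m)) →
      ¬ ∃ x ∈ S, ∀ n, a n < x ∧ x < σ (hist a n))

open Pool.Agent.H.MP_8fd369_lc in
theorem result : ∃ (A : Type) (_ : LinearOrder A), DenselyOrdered A ∧ Uncountable A ∧
    IsEmpty ((ω₁ : Ordinal.{0}).ToType ↪o A) ∧ IsEmpty ((ω₁ : Ordinal.{0}).ToTypeᵒᵈ ↪o A) ∧
    (∀ U : Set A, Nonempty (U ↪o ℝ) → U.Countable) ∧
    ∀ S : Set A, ∃ σ : List A → A, Wins S σ := by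
  classical
  refine ⟨L, inferInstance, ⟨fun x y h => ?_⟩, uncL, free1, free2, fun U h => noreal U h.some,
    fun S => ?_⟩
  · obtain ⟨b, h1, h2⟩ := mv x y h
    exact ⟨b, h1.1, h2⟩
  choose f hf using fun x => mv0 x 0
  have h1 : ∀ x y, ∃ b, Good x b ∧ (x < y → b < y) := fun x y => by
    by_cases h : x < y
    · obtain ⟨b, h1, h2⟩ := mv x y h
      exact ⟨b, h1, fun _ => h2⟩
    · exact ⟨f x, (hf x).1, fun h' => (h h').elim⟩
  choose g g1 g2 using h1
  obtain ⟨x0⟩ : Nonempty L := by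
    have := uncL
    infer_instance
  let σ : List L → L := fun l => List.rec x0 (fun x l y => if l = [] then f x else g x y) l
  have s0 : ∀ a : ℕ → L, σ (hist a 0) = f (a 0) := fun a => if_pos rfl
  have s1 : ∀ (a : ℕ → L) n, σ (hist a (n + 1)) = g (a (n + 1)) (σ (hist a n)) := fun a n =>
    if_neg (by cases n <;> simp [hist])
  have s2 : ∀ (a : ℕ → L) n, Good (a n) (σ (hist a n)) := fun a n => by
    cases n with
    | zero => exact s0 a ▸ (hf _).1
    | succ n => exact s1 a n ▸ g1 _ _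
  refine ⟨σ, fun a => ⟨fun n h => ⟨(s2 a n).1, fun m hm => ?_⟩, fun h ⟨x, _, hx⟩ =>
    win a _ (strictMono_nat_of_lt_succ fun n => (h n).1) (s2 a) x hx⟩⟩
  subst hm
  rw [s1]
  exact g2 _ _ (h m m.lt_succ_self).2

end Pool.Agent.Results.MP_8fd369_lc.Yes
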